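import Pool.Agent.H71.SLP.Stmts

/-!
# Nestedness of the contexts in one row

`NST` (input of `H2S`): the context of the row `R`, radius `a`, window `v`, is determined by the
context of the same row for a larger radius `a'` (smaller cell) and a longer window `v'`, and by the
exact time, up to `ε ((a' - a) + x)` mesh units.
-/

set_option autoImplicit false

namespace Pool.SLF

open Finset Real
open Pool.Agent.H49.Ent Pool.Agent.H32.Dense Pool.STK Pool.KA Pool.KSAT Pool.K2S Pool.PB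
open Pool.KAF

variable {k : ℕ}

/-- **(NST)** Nestedness of the contexts in one row. -/
def NST (S : FCl (k + 1)) : Prop :=
  ∀ (c h₁ X : ℝ) (K : ℕ) (ε : ℝ), 0 < c → c ≤ 1 → 0 < h₁ → 0 < X → 1 ≤ K → 0 < ε →
    ∃ B₂ : ℕ, 1 ≤ B₂ ∧ ∀ B₁ ≥ B₂, ∃ B₀ : ℕ, ∀ B ≥ B₀, ∃ L₁ : ℕ, ∀ L ≥ L₁, ∀ N x : ℕ,
    B₂ * L ≤ x → x ≤ B₁ * L →
    ∀ (i₁ : Fin (k + 1)) (ρ R q a w a' w' : ℕ), w' ≤ w → w ≤ a → a ≤ a' → a' ≤ R + 3 →
    a' ≤ ρ → a' + 3 + x ≤ w' + q → R + B * L ≤ ρ → (ρ : ℝ) + X * N ≤ N →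
    Clg S (fun J F A => Ch F i₁ ⌊h₁ * J⌋₊ A → Pls F c N ρ A → GC F c N L B R A →
      ∀ (p : ℕ → ℕ → ℕ) (d : Dts F), d.OK i₁ N ρ K p A → Gap p R (B * L) a → R ≤ p a w →
      R ≤ p a' w' → ∀ v v' : ℕ, w * (J / N) ≤ v → w' * (J / N) ≤ v' →
      v' + x * (J / N) ≤ v → v ≤ a * (J / N) →
      CH (Qa F A) (cx F i₁ N q d R a v) (fun ω => (cx F i₁ N q d R a' v' ω, F.W ω)) ≤
        ε * ((((a' - a) + x) * (J / N) : ℕ) : ℝ))

end Pool.SLF
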