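import Pool.Agent.H71.SLP.Geo
import Pool.Agent.H7.SLF.Base
import Pool.Agent.H25.SLF.H1F
import Pool.Agent.H59.M5.Rec
import Pool.Agent.H39.SLO.Tms
import Pool.Agent.H31.SLF.Nst
import Pool.Agent.H31.M5.H2Xd

/-!
# Row (H2S) of the slope law: one step of the chain of windows

`h2s_of : SHD S → NST S → H2S S`.
-/

set_option autoImplicit false

namespace Pool.SLF

open Finset Real MvPolynomial
open Pool.Agent.H49.Ent Pool.Agent.H32.Dense Pool.STK Pool.KA Pool.KSAT Pool.K2S Pool.PB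
open Pool.KAF
open Pool.KVA (MI)

variable {k J : ℕ}

/-- Polynomials with the same rounded coefficients are close. -/
theorem eval_hz_near {m K P : ℕ} {G G' : MvPolynomial (Fin m) ℝ} (hG : G.totalDegree ≤ K)
    (hG' : G'.totalDegree ≤ K) (h : Pool.OVN.hz P G = Pool.OVN.hz P G') {z : Fin m → ℝ}
    (hz : ∀ i, |z i| ≤ 3) :
    |eval z G - eval z G'| ≤ (SLO.mons m K).card * 3 ^ K / 2 ^ P := by
  rw [SLO.eval_of_degree hG, SLO.eval_of_degree hG', ← Finset.sum_sub_distrib]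
  refine (Finset.abs_sum_le_sum_abs _ _).trans ?_
  have hP : (0 : ℝ) < 2 ^ P := by positivity
  have h1 : ∀ s ∈ SLO.mons m K,
      |coeff s G * ∏ i, z i ^ s i - coeff s G' * ∏ i, z i ^ s i| ≤ 3 ^ K / 2 ^ P := by
    intro s hs
    rw [← sub_mul, abs_mul]
    have e1 : |coeff s G - coeff s G'| ≤ 1 / 2 ^ P := by
      have h2 := SLO.floor_eq_diff hP.le (congrFun h s)
      rw [abs_mul, abs_of_pos hP] at h2
      rw [le_div_iff₀ hP, mul_comm]
      exact h2
    have e2 : |∏ i, z i ^ s i| ≤ 3 ^ K := by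
      rw [Finset.abs_prod]
      calc ∏ i, |z i ^ s i| ≤ ∏ i, (3 : ℝ) ^ s i := by
            refine Finset.prod_le_prod (fun i _ => abs_nonneg _) fun i _ => ?_
            rw [abs_pow]
            exact pow_le_pow_left₀ (abs_nonneg _) (hz i) _
        _ = 3 ^ ∑ i, s i := by rw [Finset.prod_pow_eq_pow_sum]
        _ ≤ 3 ^ K := by
            refine pow_le_pow_right₀ (by norm_num) ?_
            have h3 := SLO.mem_mons.1 hs
            rwa [Finsupp.sum_fintype _ _ (fun _ => rfl)] at h3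
    calc _ ≤ 1 / 2 ^ P * 3 ^ K := mul_le_mul e1 e2 (abs_nonneg _) (by positivity)
      _ = 3 ^ K / 2 ^ P := by ring
  refine (Finset.sum_le_sum h1).trans (le_of_eq ?_)
  rw [Finset.sum_const, nsmul_eq_mul, mul_div_assoc]

/-- **The height from the static record** and the context. -/
theorem nud_st (k K : ℕ) : ∃ B : ℝ, 0 ≤ B ∧ ∀ (J : ℕ) (F : Fam (k + 1) J) (i₁ : Fin (k + 1))
    (N ρ q : ℕ) (d : Dts F) (p : F.Ω → ℝ) (R a v P X : ℕ),
    (∀ y, (d.G a y).totalDegree ≤ K) → IsLaw p → v ≤ J →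
    (a + 2) * (J / N) ≤ q * (J / N) + v → (R - 1) * (J / N) + X ≤ P * (J / N) →
    CH p (nud F i₁ N ρ K q d R a v X)
      (fun ω => (cx F i₁ N q d R a v ω, (st F i₁ N ρ q d P a ω, F.W ω))) ≤ B := by
  obtain ⟨M, hM⟩ : ∃ M : ℝ, M = (SLO.mons (k + 1) K).card * 3 ^ K := ⟨_, rfl⟩
  have hM0 : 0 ≤ M := by
    rw [hM]
    positivity
  refine ⟨Real.log (2 * (M + 1) + 1), Real.log_nonneg (by linarith only [hM0]), ?_⟩
  intro J F i₁ N ρ q d p R a v P X hdG hp hv hq hP
  have h1 := CH_le_int hp.nonneg hp.sum_one (nud F i₁ N ρ K q d R a v X)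
    (fun ω => (cx F i₁ N q d R a v ω, (st F i₁ N ρ q d P a ω, F.W ω))) (fun _ => M + 1) (by
      intro ω ω' _ _ hh
      obtain ⟨hc, h2⟩ := Prod.ext_iff.1 hh
      obtain ⟨hs, hW⟩ := Prod.ext_iff.1 h2
      have hc' : cx F i₁ N q d R a v ω = cx F i₁ N q d R a v ω' := hc
      have hs' : st F i₁ N ρ q d P a ω = st F i₁ N ρ q d P a ω' := hs
      have hW' : F.W ω = F.W ω' := hW
      obtain ⟨-, -, -, x4, x5, -, x7, -⟩ := SLO.ctx_ext hc'
      obtain ⟨s1, -⟩ := Prod.ext_iff.1 hs'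
      obtain ⟨s2, s3⟩ := Prod.ext_iff.1 s1
      have s4 : SLO.bc F i₁ ((a + 2) * (J / N)) ω = SLO.bc F i₁ ((a + 2) * (J / N)) ω' :=
        (Prod.ext_iff.1 s2).2
      have s5 : Pool.OVN.hz (P * (J / N)) (Pool.OVN.pul ((a + 2) * (J / N))
          (SLO.bc F i₁ ((a + 2) * (J / N)) ω) (own F N ρ d a ω)) =
          Pool.OVN.hz (P * (J / N)) (Pool.OVN.pul ((a + 2) * (J / N))
          (SLO.bc F i₁ ((a + 2) * (J / N)) ω') (own F N ρ d a ω')) := s3
      obtain ⟨t1, -, -⟩ := SLO.tw_ext hW' v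
      have hXp : (0 : ℝ) < 2 ^ X := by positivity
      have hap : (0 : ℝ) < 2 ^ ((a + 2) * (J / N)) := by positivity
      have t01 := T1_real F hv ω
      -- the centre
      set b0 : Fin (k + 1) → ℝ := SLO.pnt i₁ 0 0 (F.tw v ω) with hb0
      have hb0i : b0 i₁ = F.tw v ω := by
        rw [hb0]
        unfold SLO.pnt
        rw [if_pos rfl]
      have hcube : ∀ i, 0 ≤ b0 i ∧ b0 i ≤ 1 := by
        intro i
        rw [hb0]
        unfold SLO.pnt
        split_ifs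
        · unfold Fam.tw
          constructor <;> linarith only [t01, t01.1, t01.2]
        · simp
      set Bp : Fin (k + 1) → ℝ := SLO.sb i₁ ((a + 2) * (J / N)) v
        (SLO.cw F i₁ ((a + 2) * (J / N)) v ω) (SLO.dq F i₁ (q * (J / N)) ω) b0 with hBp
      have hnear := near_slice F i₁ (a := (a + 2) * (J / N)) (q := q * (J / N)) hv hq ω
        hcube hb0i
      rw [← hBp] at hnear
      set c := SLO.bc F i₁ ((a + 2) * (J / N)) ω with hcdef
      set z : Fin (k + 1) → ℝ := fun j => 2 ^ ((a + 2) * (J / N)) * Bp j - c j with hz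
      have hz3 : ∀ j, |z j| ≤ 3 := by
        intro j
        have e1 := Int.floor_le ((2 : ℝ) ^ ((a + 2) * (J / N)) * bp F i₁ ω j)
        have e2 := Int.lt_floor_add_one ((2 : ℝ) ^ ((a + 2) * (J / N)) * bp F i₁ ω j)
        rw [← SLO.bc_apply, ← hcdef] at e1 e2
        have e3 : |(2 : ℝ) ^ ((a + 2) * (J / N)) * (Bp j - bp F i₁ ω j)| ≤ 2 := by
          rw [abs_mul, abs_of_pos hap]
          calc (2 : ℝ) ^ ((a + 2) * (J / N)) * _ ≤
                2 ^ ((a + 2) * (J / N)) * (2 / 2 ^ ((a + 2) * (J / N))) :=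
                mul_le_mul_of_nonneg_left (hnear j) hap.le
            _ = 2 := by field_simp
        rw [mul_sub] at e3
        have e4 := abs_le.1 e3
        rw [hz, abs_le]
        constructor <;> linarith [e4.1, e4.2]
      have hBz : (fun j => (c j : ℝ) / 2 ^ ((a + 2) * (J / N)) +
          1 / 2 ^ ((a + 2) * (J / N)) * z j) = Bp := by
        funext j
        rw [hz]
        field_simp
        ring
      have k1 : eval Bp (own F N ρ d a ω) = eval z (Pool.OVN.pul ((a + 2) * (J / N)) c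
          (own F N ρ d a ω)) := by
        rw [SLO.eval_pul, hBz]
      have k2 : eval Bp (own F N ρ d a ω') = eval z (Pool.OVN.pul ((a + 2) * (J / N)) c
          (own F N ρ d a ω')) := by
        rw [SLO.eval_pul, hBz]
      have k3 := eval_hz_near (K := K) (G := Pool.OVN.pul ((a + 2) * (J / N)) c
        (own F N ρ d a ω)) (G' := Pool.OVN.pul ((a + 2) * (J / N))
        (SLO.bc F i₁ ((a + 2) * (J / N)) ω') (own F N ρ d a ω'))
        ((SLO.totalDegree_pul_le _ _ _).trans (hdG _))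
        ((SLO.totalDegree_pul_le _ _ _).trans (hdG _)) s5 hz3
      rw [← s4, ← k1, ← k2, ← hM] at k3
      have k4 : nu F i₁ N ρ K q d R a v ω - nu F i₁ N ρ K q d R a v ω' =
          2 ^ ((R - 1) * (J / N)) * (eval Bp (own F N ρ d a ω) -
            eval Bp (own F N ρ d a ω')) := by
        unfold nu SLO.nuw SLO.nub SLO.plb
        rw [SLO.eval_pull, SLO.eval_pull, ← x7 K, ← t1, ← x4, ← x5, ← hb0, ← hBp]
        ring
      have k5 : |(2 : ℝ) ^ X * nu F i₁ N ρ K q d R a v ω -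
          2 ^ X * nu F i₁ N ρ K q d R a v ω'| ≤ M := by
        rw [← mul_sub, k4, ← mul_assoc, abs_mul, abs_of_pos (by positivity), ← pow_add]
        calc (2 : ℝ) ^ (X + (R - 1) * (J / N)) * _ ≤
              2 ^ (P * (J / N)) * (M / 2 ^ (P * (J / N))) := by
              refine mul_le_mul (pow_le_pow_right₀ (by norm_num) (by omega)) k3
                (abs_nonneg _) (by positivity)
          _ = M := by field_simp
      unfold nud
      exact SLO.floor_near k5)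
  rw [Ex_const hp.sum_one] at h1
  exact h1

/-- The lines without separated samples. -/
theorem spt_pe {m : ℕ} (F : Fam m J) {q : F.Ω → ℝ} (hq : IsLaw q) {e : ℝ} (he0 : 0 ≤ e)
    (he : (J : ℝ) * Real.log 2 - e ≤ CH q F.T (fun ω => (F.l ω, F.Z ω))) {w k₀ K : ℕ}
    (hw : w + k₀ ≤ J) (hk : (4 * (K + 1)) ^ 2 ≤ 2 ^ k₀) :
    Pe q (fun ω => ¬ SLO.Spt F q w k₀ K ω) ≤ 2 * e / (k₀ * Real.log 2) := by
  classical
  have h1 := Pool.Agent.H25.M5.time_full he hq (w := w) (w' := w + k₀) (by omega) hw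
  rw [Nat.add_sub_cancel_left] at h1
  have h2 := Pool.Agent.H39.SLO.tms_fam F hq (fun _ => True) (n := K + 1) (by omega) hw he0 h1 hk
  have h3 : Pe q (fun _ : F.Ω => ¬ True) = 0 := by
    rw [Pe_eq]
    simp
  rw [h3, mul_zero, zero_add] at h2
  refine le_trans (Pe_mono hq ?_) h2
  intro ω hω hex
  obtain ⟨v, v1, v2⟩ := hex
  exact hω ⟨v, fun i => ⟨(v1 i).2.1, (v1 i).2.2⟩, v2⟩

/-- **Row (H2S).** -/
theorem h2s_of {S : FCl (k + 1)} (hSHD : SHD S) (hNST : NST S) : H2S S := by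
  intro c h₁ X K ε hc hc1 hh₁ hX hK hε
  have hε8 : 0 < ε / 8 := by positivity
  obtain ⟨B₂a, hB₂a, a1⟩ := hSHD c h₁ X K (ε / 8) hc hc1 hh₁ hX hK hε8
  obtain ⟨B₂b, hB₂b, b1⟩ := hNST c h₁ X K (ε / 8) hc hc1 hh₁ hX hK hε8
  refine ⟨max B₂a B₂b, hB₂a.trans (le_max_left _ _), fun B₁ hB₁ => ?_⟩
  obtain ⟨B₀a, a2⟩ := a1 B₁ ((le_max_left _ _).trans hB₁)
  obtain ⟨B₀b, b2⟩ := b1 B₁ ((le_max_right _ _).trans hB₁)
  refine ⟨max (max B₀a B₀b) (B₁ + 3), fun B hB => ?_⟩
  obtain ⟨L₁a, a3⟩ := a2 B (((le_max_left _ _).trans (le_max_left _ _)).trans hB)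
  obtain ⟨L₁b, b3⟩ := b2 B (((le_max_right _ _).trans (le_max_left _ _)).trans hB)
  refine ⟨max (max L₁a L₁b) 1, fun L hL N x hx1 hx2 i₁ ρ R q a w a' w' hww hwa haa haR haρ hq
    hRρ hXN => ?_⟩
  have hLa : L₁a ≤ L := ((le_max_left _ _).trans (le_max_left _ _)).trans hL
  have hLb : L₁b ≤ L := ((le_max_right _ _).trans (le_max_left _ _)).trans hL
  have hL1 : 1 ≤ L := (le_max_right _ _).trans hL
  have hBB₁ : B₁ + 3 ≤ B := (le_max_right _ _).trans hB
  have hxa : B₂a * L ≤ x := (Nat.mul_le_mul_right _ (le_max_left _ _)).trans hx1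
  have hxb : B₂b * L ≤ x := (Nat.mul_le_mul_right _ (le_max_right _ _)).trans hx1
  have hx0 : 1 ≤ x := hL1.trans ((Nat.le_mul_of_pos_left L hB₂a).trans hxa)
  have hxB : x + 3 ≤ B * L := by
    have h1 := Nat.mul_le_mul_right L hBB₁
    rw [add_mul] at h1
    omega
  have hN0 : 0 < N := by
    rcases Nat.eq_zero_or_pos N with h | h
    · exfalso
      subst h
      have h4 : (ρ : ℝ) ≤ 0 := by simpa using hXN
      have h5 : ρ = 0 := by
        have : (ρ : ℝ) = 0 := le_antisymm h4 (Nat.cast_nonneg ρ)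
        exact_mod_cast this
      omega
    · exact h
  have hN1 : (1 : ℝ) ≤ N := by exact_mod_cast hN0
  have hρN : ρ ≤ N := by
    have h1 : (0 : ℝ) ≤ X * N := by positivity
    have h2 : (ρ : ℝ) ≤ N := by linarith only [hXN, h1]
    exact_mod_cast h2
  have hqa : a + 3 + x ≤ w + q := by omega
  obtain ⟨Bs, hBs, hstep⟩ := SLO.h2x_step k K hK (C0 k K) (one_le_C0 k K)
  obtain ⟨Br, hBr, hrho⟩ := nud_st k K
  obtain ⟨M, hM⟩ := exists_nat_gt (8 * (K * K) / ε)
  have hM0 : 0 < M := by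
    have h1 : (0 : ℝ) < M := lt_of_le_of_lt (by positivity) hM
    exact_mod_cast h1
  have hM1 : (1 : ℝ) ≤ M := by exact_mod_cast hM0
  obtain ⟨k₁, hk₁⟩ : ∃ k₁ : ℕ, k₁ = (4 * (K + 1)) ^ 2 := ⟨_, rfl⟩
  have hk₁1 : 1 ≤ k₁ := by
    rw [hk₁]
    exact Nat.one_le_pow _ _ (by omega)
  obtain ⟨η, hη⟩ : ∃ η : ℝ, η = ε / (512 * N * M) := ⟨_, rfl⟩
  have hη0 : 0 < η := by
    rw [hη]
    positivity
  obtain ⟨u₁, hu₁⟩ := exists_nat_gt (8 * (Bs + Br) / ε + Bs)
  refine Clg.mono (J₂ := N * (M * k₁ + u₁ + 3))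
    (((a3 L hLa N x hxa hx2 i₁ ρ R q a w hwa (haa.trans haR) (haa.trans haρ) hqa hRρ hXN).and
      (b3 L hLb N x hxb hx2 i₁ ρ R q a w a' w' hww hwa haa haR haρ hq hRρ hXN)).and
      (h1f_thm S η hη0)) ?_
  intro J hJ F A hall hCh hPl hGC p d hd hG hR hR' v v' X' hX' hv hv' hvv hva
  obtain ⟨⟨sh, ns⟩, hlaw, htime⟩ := hall
  have hsh := sh hCh hPl hGC p d hd hG hR v hv hva
  rw [← hX'] at hsh
  have hns := ns hCh hPl hGC p d hd hG hR hR' v v' hv hv' (by rw [← hX']; exact hvv) hva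
  -- the unit
  have huu : M * k₁ + u₁ + 3 ≤ J / N := by
    rw [Nat.le_div_iff_mul_le hN0, mul_comm]
    exact hJ
  have hu1 : 1 ≤ J / N := by omega
  have huX : J / N ≤ X' := by
    rw [hX']
    exact Nat.le_mul_of_pos_left _ hx0
  have hX3 : 3 ≤ X' := by omega
  have hNJ : N * (J / N) ≤ J := Nat.mul_div_le J N
  have hax : a + x ≤ ρ := by omega
  have haxJ : (a + x) * (J / N) ≤ J :=
    (Nat.mul_le_mul_right _ (hax.trans hρN)).trans hNJ
  have hvXJ : v + X' ≤ J := by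
    rw [hX']
    refine le_trans ?_ haxJ
    rw [add_mul]
    omega
  have hvJ : v ≤ J := by omega
  have hsup : ∀ ω, 0 < Qa F A ω → A ω := by
    intro ω hω
    have h1 := ((cond_pos_iff F.isLaw.nonneg A True ω).1 hω).2
    rw [h1]
    trivial
  -- the precisions
  have haρ' : a ≤ ρ := haa.trans haρ
  have hg1 : R + B * L ≤ p a a := ok_gap hd haρ' hG
  have hg2 : R + B * L ≤ p a' a' := hG.2.trans (hd.mo (a - B * L) a' (a - B * L) a'
    ((Nat.sub_le _ _).trans haa) haρ ((Nat.sub_le _ _).trans haa) le_rfl)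
  have hpre : (R - 1) * (J / N) + X' ≤ p a a * (J / N) := by
    rw [hX', ← add_mul]
    exact Nat.mul_le_mul_right _ (by omega)
  have hpre' : (R - 1) * (J / N) + X' ≤ p a' a' * (J / N) := by
    rw [hX', ← add_mul]
    exact Nat.mul_le_mul_right _ (by omega)
  -- the sizes of the boxes
  have hbox' : (a' + 2) * (J / N) + X' ≤ q * (J / N) + v' := by
    have h1 : (a' + 2 + x) * (J / N) ≤ (w' + q) * (J / N) := Nat.mul_le_mul_right _ (by omega)
    rw [add_mul, add_mul w' q] at h1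
    rw [hX']
    omega
  have hbox : (a + 2) * (J / N) + X' ≤ q * (J / N) + v := by
    have h1 : (a + 2) * (J / N) ≤ (a' + 2) * (J / N) := Nat.mul_le_mul_right _ (by omega)
    omega
  have hwa' : w' ≤ a' := hww.trans (hwa.trans haa)
  have hv'a' : v' ≤ a' * (J / N) := by
    have h1 : a * (J / N) ≤ a' * (J / N) := Nat.mul_le_mul_right _ haa
    omega
  -- the numbers of digits
  obtain ⟨k₀, hk₀⟩ : ∃ k₀ : ℕ, k₀ = X' / M := ⟨_, rfl⟩
  have hk₀1 : k₁ ≤ k₀ := by
    rw [hk₀, Nat.le_div_iff_mul_le hM0, mul_comm]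
    omega
  have hk₀X : k₀ * M ≤ X' := by
    rw [hk₀]
    exact Nat.div_mul_le_self _ _
  have hk₀X' : X' ≤ 2 * (k₀ * M) := by
    have h1 : X' < M * (k₀ + 1) := by
      rw [hk₀]
      exact Nat.lt_mul_div_succ X' hM0
    have h2 : M * (k₀ + 1) = k₀ * M + M := by ring
    have h3 : M ≤ k₀ * M := Nat.le_mul_of_pos_left M (by omega)
    omega
  have hkX : k₀ ≤ X' := (Nat.le_mul_of_pos_right k₀ hM0).trans hk₀X
  have hk₀p : (4 * (K + 1)) ^ 2 ≤ 2 ^ k₀ := by
    rw [← hk₁]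
    exact hk₀1.trans Nat.lt_two_pow_self.le
  have hηJ : 0 ≤ η * J := by positivity
  have hse := spt_pe F hlaw hηJ htime (w := v) (k₀ := k₀) (K := K) (by omega) hk₀p
  have hse' := spt_pe F hlaw hηJ htime (w := v') (k₀ := k₀) (K := K) (by omega) hk₀p
  -- the supports
  have hS : ∀ ω, 0 < Qa F A ω → SLO.Sup F i₁ ((a + 2) * (J / N)) v (q * (J / N)) K
      (R * (J / N)) ((R - 1) * (J / N)) X' (C0 k K) (d.H a v) (own F N ρ d a) ω := by
    intro ω hω
    refine ⟨hd.dG _ _, fun b hb hb1 => ?_, ok_on hd haρ' hpre ω (hsup ω hω)⟩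
    have h1 := slice hd hu1 haρ' hwa hR hv hva hvJ (q := q) (by omega) (hsup ω hω) hb hb1
    rw [abs_mul, abs_of_pos (show (0 : ℝ) < 2 ^ ((R - 1) * (J / N)) by positivity)] at h1
    rw [le_div_iff₀ (by positivity), mul_comm]
    exact h1
  have hS' : ∀ ω, 0 < Qa F A ω → SLO.Sup F i₁ ((a' + 2) * (J / N)) v' (q * (J / N)) K
      (R * (J / N)) ((R - 1) * (J / N)) X' (C0 k K) (d.H a' v') (own F N ρ d a') ω := by
    intro ω hω
    refine ⟨hd.dG _ _, fun b hb hb1 => ?_, ok_on hd haρ hpre' ω (hsup ω hω)⟩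
    have h1 := slice hd hu1 haρ hwa' hR' hv' hv'a' (by omega) (q := q) (by omega) (hsup ω hω)
      hb hb1
    rw [abs_mul, abs_of_pos (show (0 : ℝ) < 2 ^ ((R - 1) * (J / N)) by positivity)] at h1
    rw [le_div_iff₀ (by positivity), mul_comm]
    exact h1
  have hGG : ∀ ω, 0 < Qa F A ω → SLO.GG F i₁ ((a' + 2) * (J / N)) v' (q * (J / N))
      ((R - 1) * (J / N) + X') (C0 k K) (own F N ρ d a) (own F N ρ d a') ω := by
    intro ω hω z hz hzi
    have h1 := hd.cm a a' haa haρ ω (hsup ω hω)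
      (SLO.sb i₁ ((a' + 2) * (J / N)) v' (SLO.cw F i₁ ((a' + 2) * (J / N)) v' ω)
        (SLO.dq F i₁ (q * (J / N)) ω) z)
      (fun j => (near_slice F i₁ (by omega) (by omega) ω hz hzi j).trans (two_le_ball hu1))
    unfold SLO.plb
    rw [SLO.eval_pull, SLO.eval_pull, abs_sub_comm]
    refine h1.trans ?_
    refine div_le_div₀ (by linarith only [one_le_C0 k K]) (one_le_C0 k K) (by positivity) ?_
    exact pow_le_pow_right₀ (by norm_num) hpre
  have key := hstep J F i₁ (q * (J / N)) (R * (J / N)) ((R - 1) * (J / N)) X' k₀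
    ((a + 2) * (J / N)) v ((a' + 2) * (J / N)) v' (d.H a v) (d.H a' v') (own F N ρ d a)
    (own F N ρ d a') (Qa F A) _ _ _ _ _ _
    (fun ω => (cx F i₁ N q d R a' v' ω, (st F i₁ N ρ q d (p a' a') a' ω, F.W ω)))
    hlaw hX3 hvJ hvv (Nat.mul_le_mul_right _ (by omega)) hbox hbox' hS hS' hGG hns
    hsh hse hse' (by
      intro ω ω' _ _ h
      obtain ⟨h1, h2⟩ := Prod.ext_iff.1 h
      exact Prod.ext h1 (Prod.ext_iff.1 h2).2)
    (hrho J F i₁ N ρ q d (Qa F A) R a' v' (p a' a') X' (hd.dG a') hlaw (by omega) (by omega)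
      hpre')
  refine key.trans ?_
  -- the estimate
  have hlog0 : 0 < Real.log 2 := Real.log_pos (by norm_num)
  have hlog1 : Real.log 2 ≤ 1 := by
    have := Real.log_two_lt_d9
    linarith only [hlog0, this]
  have hlog2 : 1 / 2 ≤ Real.log 2 := by
    have := Real.log_two_gt_d9
    linarith only [hlog0, this]
  obtain ⟨u, hu⟩ : ∃ u, u = J / N := ⟨_, rfl⟩
  rw [← hu] at huX huu hu1
  have hXu : (u : ℝ) ≤ X' := by exact_mod_cast huX
  have hu1r : (1 : ℝ) ≤ u := by exact_mod_cast hu1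
  have hu₁u : (u₁ : ℝ) ≤ u := by
    have : u₁ ≤ u := by omega
    exact_mod_cast this
  have hk₀r : (1 : ℝ) ≤ k₀ := by
    have : 1 ≤ k₀ := hk₁1.trans hk₀1
    exact_mod_cast this
  have e1 : Bs + Br ≤ ε / 8 * X' := by
    have h1 : 8 * (Bs + Br) / ε ≤ u := by linarith only [hBs, hu₁, hu₁u]
    rw [div_le_iff₀ hε] at h1
    have h2 : (u : ℝ) * ε ≤ X' * ε := mul_le_mul_of_nonneg_right hXu hε.le
    linarith only [h1, h2]
  have e2 : Bs ≤ X' := by
    have h1 : 0 ≤ 8 * (Bs + Br) / ε := by positivity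
    linarith only [hu₁, hXu, hu₁u, h1]
  have e3 : (K : ℝ) * K * k₀ * Real.log 2 ≤ ε / 8 * X' := by
    rw [div_lt_iff₀ hε] at hM
    have h1 : (k₀ : ℝ) * M ≤ X' := by exact_mod_cast hk₀X
    have h2 : (K : ℝ) * K * k₀ * Real.log 2 ≤ K * K * k₀ * 1 :=
      mul_le_mul_of_nonneg_left hlog1 (by positivity)
    have h3 : (K : ℝ) * K * k₀ ≤ ε / 8 * M * k₀ :=
      mul_le_mul_of_nonneg_right (by linarith only [hM]) (by positivity)
    have h4 : ε / 8 * (k₀ * M) ≤ ε / 8 * X' := mul_le_mul_of_nonneg_left h1 hε8.le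
    linarith only [h2, h3, h4]
  have e4 : 2 * (η * J) / (k₀ * Real.log 2) * (X' * Real.log 2 + Bs) ≤ ε / 16 * X' := by
    have h1 : (J : ℝ) ≤ 2 * N * u := by
      have h2 : J < N * (u + 1) := by
        rw [hu]
        exact Nat.lt_mul_div_succ J hN0
      have h3 : (J : ℝ) ≤ N * (u + 1) := by exact_mod_cast h2.le
      have h4 : (N : ℝ) * (u + 1) ≤ N * (2 * u) :=
        mul_le_mul_of_nonneg_left (by linarith only [hu1r]) (by positivity)
      linarith only [h3, h4]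
    have h2 : η * J ≤ ε * u / (256 * M) := by
      have h3 : η * J ≤ η * (2 * N * u) := mul_le_mul_of_nonneg_left h1 hη0.le
      refine h3.trans (le_of_eq ?_)
      rw [hη]
      field_simp
      ring
    have h3 : X' * Real.log 2 + Bs ≤ 2 * X' := by
      have h4 : (X' : ℝ) * Real.log 2 ≤ X' * 1 :=
        mul_le_mul_of_nonneg_left hlog1 (Nat.cast_nonneg _)
      linarith only [e2, h4]
    have h4 : (X' : ℝ) ≤ 2 * (k₀ * M) := by exact_mod_cast hk₀X'
    have hkl : 0 < k₀ * Real.log 2 := by positivity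
    rw [div_mul_eq_mul_div, div_le_iff₀ hkl]
    have h5 : 2 * (η * J) * (X' * Real.log 2 + Bs) ≤
        2 * (ε * u / (256 * M)) * (2 * (2 * (k₀ * M))) := by
      refine mul_le_mul (by linarith only [h2]) (by linarith only [h3, h4]) (by positivity) (by positivity)
    have h6 : 2 * (ε * u / (256 * M)) * (2 * (2 * (k₀ * M))) = ε * u * k₀ / 32 := by
      field_simp
      ring
    have h7 : ε * u * k₀ / 32 ≤ ε / 16 * X' * (k₀ * Real.log 2) := by
      have h8 : ε / 16 * X' * (k₀ * (1 / 2)) ≤ ε / 16 * X' * (k₀ * Real.log 2) := by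
        refine mul_le_mul_of_nonneg_left ?_ (by positivity)
        exact mul_le_mul_of_nonneg_left hlog2 (by positivity)
      have h9 : ε * u * k₀ / 32 ≤ ε / 16 * X' * (k₀ * (1 / 2)) := by
        have h10 : ε * k₀ / 32 * u ≤ ε * k₀ / 32 * X' :=
          mul_le_mul_of_nonneg_left hXu (by positivity)
        linarith only [h10]
      linarith only [h8, h9]
    linarith only [h5, h6, h7]
  have e6 : (X' : ℝ) ≤ ((((a' - a) + x) * (J / N) : ℕ) : ℝ) := by
    rw [hX']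
    exact_mod_cast Nat.mul_le_mul_right _ (Nat.le_add_left _ _)
  have e7 := mul_le_mul_of_nonneg_left e6 hε.le
  change MI (Qa F A) _ _ _ ≤ _ at key
  have e8 : CH (Qa F A) (SLO.ytd F i₁ ((a' + 2) * (J / N)) v' X')
      (fun ω => (cx F i₁ N q d R a' v' ω, (st F i₁ N ρ q d (p a' a') a' ω, F.W ω))) =
      CH (Qa F A) (yx F i₁ N a' v' X')
      (fun ω => (cx F i₁ N q d R a' v' ω, (st F i₁ N ρ q d (p a' a') a' ω, F.W ω))) := rfl
  have e9 : CH (Qa F A) (SLO.nud F i₁ ((a + 2) * (J / N)) v (q * (J / N)) K (R * (J / N))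
      ((R - 1) * (J / N)) X' (d.H a v) (own F N ρ d a))
      (fun ω => (SLO.ctx F i₁ ((a + 2) * (J / N)) v (q * (J / N)) (R * (J / N)) (d.H a v) ω,
        F.W ω)) =
      CH (Qa F A) (nud F i₁ N ρ K q d R a v X') (fun ω => (cx F i₁ N q d R a v ω, F.W ω)) := rfl
  have e10 : CH (Qa F A) (SLO.nud F i₁ ((a' + 2) * (J / N)) v' (q * (J / N)) K (R * (J / N))
      ((R - 1) * (J / N)) X' (d.H a' v') (own F N ρ d a'))
      (fun ω => (SLO.ctx F i₁ ((a' + 2) * (J / N)) v' (q * (J / N)) (R * (J / N)) (d.H a' v') ω,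
        F.W ω)) =
      CH (Qa F A) (nud F i₁ N ρ K q d R a' v' X')
        (fun ω => (cx F i₁ N q d R a' v' ω, F.W ω)) := rfl
  rw [e8, e9, e10]
  linarith only [hBs, hBr, e1, e3, e4, e7]

end Pool.SLF
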